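import Pool.Agent.helper64.D2.SpecR

/-!
# Project dc: module RI1 (substitution in the integrals over the rotation angle)
-/

set_option autoImplicit false

open Filter Topology
open scoped commutatorElement

namespace Pool.Agent.helper64.D2

theorem RI1_core (X G : ℝ → ℝ) (hd : ∀ u, HasDerivAt (Hh X) (1 + deriv X u / 2) u)
    (hc : Continuous (deriv X)) (hG : IsG X G) (g : ℝ → ℝ) (hg : Continuous g) (s t : ℝ) :
    (∫ w in s..t, g w * (1 + deriv X w / 2)) = ∫ y in (Hh X s)..(Hh X t), g (G y) := by
  have h := intervalIntegral.integral_comp_mul_deriv (a := s) (b := t) (f := Hh X)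
    (f' := fun w => 1 + deriv X w / 2) (g := fun y => g (G y)) (fun x _ => hd x)
    (Continuous.continuousOn (by fun_prop)) (hg.comp hG.2.2)
  rw [← h]
  refine intervalIntegral.integral_congr (fun w _ => ?_)
  simp only [Function.comp, hG.1 w]

theorem RI1 (hRG1 : RG1_stmt) : RI1_stmt := by
  intro X G p q a lam hSH hG g hg u β
  obtain ⟨hd, -, -⟩ := hRG1 X p q a lam hSH
  have hc : Continuous (deriv X) := hSH.1.continuous_deriv (by norm_num)
  constructor
  · rw [RI1_core X G hd hc hG g hg, hG.2.1]
    have h := intervalIntegral.integral_comp_sub_left (a := (0 : ℝ)) (b := β) (fun y => g (G y)) (Hh X u)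
    simp only [sub_zero] at h
    exact h
  · rw [RI1_core X G hd hc hG g hg, hG.2.1]
    have h := intervalIntegral.integral_comp_add_left (a := (0 : ℝ)) (b := β) (fun y => g (G y)) (Hh X u)
    simp only [add_zero] at h
    exact h

end Pool.Agent.helper64.D2
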